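import Mathlib

namespace Pool.Agent.H.MP_20dafb_an

open Filter Topology

variable {H : Type} [NormedAddCommGroup H] [InnerProductSpace ℂ H] [CompleteSpace H]

noncomputable def q (X : H →L[ℂ] H) (x y : H) : ℝ := (inner ℂ x (X y)).re

lemma q_conj (X a b : H →L[ℂ] H) (x y : H) : q (star a * X * b) x y = q X (a x) (b y) := by
  simp only [q, mul_apply_eq_comp, ContinuousLinearMap.star_eq_adjoint,
    ContinuousLinearMap.adjoint_inner_right]

omit [CompleteSpace H] in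
lemma q_le (X : H →L[ℂ] H) (x : H) : q X x x ≤ ‖X‖ * ‖x‖ ^ 2 := by
  refine (Complex.re_le_norm _).trans ((norm_inner_le_norm _ _).trans ?_)
  nlinarith [X.le_opNorm x, norm_nonneg x]

omit [CompleteSpace H] in
lemma q_one (x : H) : q 1 x x = ‖x‖ ^ 2 := by
  simp [q, ← Complex.ofReal_pow]

omit [CompleteSpace H] in
lemma q_sub (X Y : H →L[ℂ] H) (x y : H) : q (X - Y) x y = q X x y - q Y x y := by
  simp [q]

omit [CompleteSpace H] in
lemma q_sum {ι : Type} (s : Finset ι) (X : ι → H →L[ℂ] H) (x y : H) :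
    q (∑ i ∈ s, X i) x y = ∑ i ∈ s, q (X i) x y := by
  simp [q]

def Blk (X Y Z : H →L[ℂ] H) : Prop := ∀ x y, 0 ≤ q X x x + 2 * q Y x y + q Z y y

omit [CompleteSpace H] in
lemma Blk.norm_le {X V Z : H →L[ℂ] H} (h : Blk X V Z) : ‖V‖ ^ 2 ≤ ‖X‖ * ‖Z‖ := by
  have key : ∀ t : ℝ, ‖X‖ < t → ‖V‖ ^ 2 ≤ t * ‖Z‖ := by
    intro t ht
    have ht0 : 0 < t := (norm_nonneg _).trans_lt ht
    rw [← Real.le_sqrt (norm_nonneg _) (by positivity)]
    refine V.opNorm_le_bound (Real.sqrt_nonneg _) fun y => ?_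
    refine le_of_sq_le_sq ?_ (by positivity)
    rw [mul_pow, Real.sq_sqrt (by positivity)]
    have h1 := h (-V y) ((t : ℂ) • y)
    have h2 : q V (-V y) ((t : ℂ) • y) = -(t * ‖V y‖ ^ 2) := by
      simp [q, ← Complex.ofReal_pow]
    have h3 := q_le X (-V y)
    have h4 := q_le Z ((t : ℂ) • y)
    rw [norm_neg] at h3
    rw [norm_smul, Complex.norm_real, Real.norm_of_nonneg ht0.le] at h4
    refine le_of_mul_le_mul_left ?_ ht0
    nlinarith [sq_nonneg ‖V y‖]
  have hc : Continuous fun t : ℝ => t * ‖Z‖ := by fun_prop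
  exact ge_of_tendsto ((hc.tendsto ‖X‖).mono_left (nhdsWithin_le_nhds (s := Set.Ioi ‖X‖)))
    (eventually_nhdsWithin_of_forall key)

lemma Blk.conj {X Y Z : H →L[ℂ] H} (h : Blk X Y Z) (a b : H →L[ℂ] H) :
    Blk (star a * X * a) (star a * Y * b) (star b * Z * b) := fun x y => by
  simp only [q_conj]
  exact h _ _

lemma norm_le_conj {A : Type} [CStarAlgebra A] {W : A} (hW : IsSelfAdjoint W) (u : Aˣ) :
    ‖W‖ ≤ ‖u * W * u⁻¹‖ := by
  rcases subsingleton_or_nontrivial A with h | h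
  · simp [Subsingleton.elim W 0]
  have h1 := spectrum.spectralRadius_le_nnnorm (𝕜 := ℂ) (u * W * u⁻¹ : A)
  rw [spectralRadius, spectrum.units_conjugate, ← spectralRadius, hW.spectralRadius_eq_nnnorm] at h1
  exact_mod_cast h1

lemma seq_le {μ : ℕ → ℝ} {n : ℕ} (hn : 1 ≤ n) (h0 : ∀ k, 0 ≤ μ k)
    (h1 : ∀ k, μ (k + 1) ^ 2 ≤ μ k * μ (k + 2)) (h2 : ∀ m, μ (n * m) ≤ 1) (k : ℕ) : μ k ≤ 1 := by
  have : Antitone μ := by
    refine antitone_nat_of_succ_le fun k => ?_
    by_contra hk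
    rw [not_le] at hk
    have hp : 0 < μ k := by
      refine (h0 k).lt_of_ne fun e => ?_
      have := h1 k
      rw [← e] at this hk
      nlinarith
    obtain ⟨r, hr⟩ : ∃ r, r = μ (k + 1) / μ k := ⟨_, rfl⟩
    have hr1 : 1 < r := hr ▸ (one_lt_div hp).2 hk
    have key : ∀ j, r ^ j * μ k ≤ μ (k + j) ∧ r * μ (k + j) ≤ μ (k + j + 1) := by
      intro j
      induction j with
      | zero => exact ⟨by simp, by rw [hr, add_zero, div_mul_cancel₀ _ hp.ne']⟩
      | succ j ih =>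
        have a1 : 0 < μ (k + j) := lt_of_lt_of_le (by positivity) ih.1
        refine ⟨?_, le_of_mul_le_mul_left ?_ a1⟩
        · rw [pow_succ', mul_assoc]
          exact (mul_le_mul_of_nonneg_left ih.1 (by linarith)).trans ih.2
        · have := h1 (k + j)
          have := mul_le_mul_of_nonneg_right ih.2 (h0 (k + j + 1))
          show μ (k + j) * (r * μ (k + j + 1)) ≤ μ (k + j) * μ (k + j + 2)
          nlinarith
    obtain ⟨J, hJ⟩ := pow_unbounded_of_one_lt (μ k)⁻¹ hr1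
    have a1 : k + J ≤ n * (k + J) := Nat.le_mul_of_pos_left _ hn
    have a2 := (key (n * (k + J) - k)).1
    rw [show k + (n * (k + J) - k) = n * (k + J) by omega] at a2
    have a3 : r ^ J ≤ r ^ (n * (k + J) - k) := pow_le_pow_right₀ hr1.le (by omega)
    rw [inv_lt_iff_one_lt_mul₀ hp] at hJ
    nlinarith [h2 (k + J)]
  simpa using (this (Nat.zero_le k)).trans (by simpa using h2 0)

lemma upper {A : ℕ → H →L[ℂ] H} (hA : ∀ k, IsSelfAdjoint (A k))
    (hB : ∀ k, Blk (A k) (A (k + 1)) (A (k + 2))) {D : H →L[ℂ] H} (hD : 0 ≤ D) {n : ℕ} (hn : 1 ≤ n)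
    (hm : ∀ m, A (n * m) = D ^ (2 * (n * m))) (k : ℕ) (x : H) : q (A k) x x ≤ ‖(D ^ k) x‖ ^ 2 := by
  have hDs : IsSelfAdjoint D := .of_nonneg hD
  have key : ∀ ε : ℝ, 0 < ε → q (A k) x x ≤ ‖((D + ε • 1) ^ k) x‖ ^ 2 := by
    intro ε hε
    have hε1 : 0 ≤ ε • (1 : H →L[ℂ] H) := smul_nonneg hε.le zero_le_one
    obtain ⟨u, hu⟩ : IsUnit (D + ε • 1) :=
      CStarAlgebra.isUnit_of_le (ε • (1 : H →L[ℂ] H)) (le_add_of_nonneg_left hD)
        ⟨hε1, isUnit_one.smul (Units.mk0 ε hε.ne')⟩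
    have hus : IsSelfAdjoint (u : H →L[ℂ] H) := hu ▸ .of_nonneg (add_nonneg hD hε1)
    have hS : IsSelfAdjoint ((u⁻¹ : (H →L[ℂ] H)ˣ) : H →L[ℂ] H) := by
      have : star u = u := Units.ext hus.star_eq
      rw [IsSelfAdjoint, ← Units.coe_star_inv, this]
    set S : H →L[ℂ] H := ((u⁻¹ : (H →L[ℂ] H)ˣ) : H →L[ℂ] H) with hSdef
    have hc : Commute D S := by
      refine Commute.units_inv_right ?_
      rw [hu]
      exact (Commute.refl D).add_right ((Commute.one_right D).smul_right ε)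
    have hDS : ‖D * S‖ ≤ 1 := by
      refine ContinuousLinearMap.opNorm_le_bound _ zero_le_one fun y => ?_
      have e : y = D (S y) + ε • S y := by
        have := congrArg (fun T : H →L[ℂ] H => T y) u.mul_inv
        simpa [hu] using this.symm
      refine le_of_sq_le_sq ?_ (by positivity)
      have h1 := ((ContinuousLinearMap.nonneg_iff_isPositive D).1 hD).re_inner_nonneg_left (S y)
      rw [one_mul]
      conv_rhs => rw [e, norm_add_sq (𝕜 := ℂ), ← Complex.coe_smul, inner_smul_right]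
      simp only [RCLike.re_to_complex, Complex.re_ofReal_mul] at h1 ⊢
      show ‖D (S y)‖ ^ 2 ≤ _
      nlinarith [sq_nonneg ‖(ε : ℂ) • S y‖]
    have hμ := seq_le (μ := fun k => ‖star (S ^ k) * A k * S ^ k‖) hn (fun _ => norm_nonneg _)
      (fun k => ?_) (fun m => ?_) k
    · have e : A k = star ((u : H →L[ℂ] H) ^ k) * (star (S ^ k) * A k * S ^ k) *
          (u : H →L[ℂ] H) ^ k := by
        have : S ^ k * (u : H →L[ℂ] H) ^ k = 1 := by
          rw [hSdef, ← Units.val_pow_eq_pow_val, ← Units.val_pow_eq_pow_val, ← Units.val_mul]; simp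
        rw [← mul_assoc, ← mul_assoc, ← star_mul, mul_assoc, this, star_one, one_mul, mul_one]
      rw [e, q_conj, ← hu]
      exact (q_le _ _).trans (mul_le_of_le_one_left (by positivity) hμ)
    · refine le_trans ?_ ((hB k).conj (S ^ k) (S ^ (k + 2))).norm_le
      gcongr
      refine (norm_le_conj ((hA (k + 1)).conjugate' _) u).trans (le_of_eq ?_)
      congr 1
      rw [(hS.pow _).star_eq, (hS.pow _).star_eq, pow_succ' S k, pow_succ S (k + 1), pow_succ' S k]
      simp only [← mul_assoc, hSdef, Units.mul_inv, one_mul]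
    · have e : star (S ^ (n * m)) * A (n * m) * S ^ (n * m) =
          (D * S) ^ (n * m) * (D * S) ^ (n * m) := by
        rw [hm, (hS.pow _).star_eq, two_mul, pow_add, hc.mul_pow]
        rw [← mul_assoc, ← (hc.pow_pow (n * m) (n * m)).eq]
        simp only [mul_assoc]
      simp only [e, ← pow_add]
      rcases Nat.eq_zero_or_pos (n * m + n * m) with h | h
      · rw [h, pow_zero]; exact ContinuousLinearMap.norm_id_le
      · exact (norm_pow_le' _ h).trans (pow_le_one₀ (norm_nonneg _) hDS)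
  have hc : Continuous fun ε : ℝ => ‖((D + ε • 1) ^ k) x‖ ^ 2 := by fun_prop
  have := ge_of_tendsto ((hc.tendsto 0).mono_left (nhdsWithin_le_nhds (s := Set.Ioi 0)))
    (eventually_nhdsWithin_of_forall key)
  simpa using this

lemma pos_zero {E : H →L[ℂ] H} (hE : IsSelfAdjoint E) (h : ∀ u, 0 ≤ q E u u) {u : H}
    (hu : q E u u ≤ 0) : E u = 0 := by
  have ht : 0 < (‖E‖ + 1)⁻¹ := by positivity
  have ht' : (‖E‖ + 1)⁻¹ * ‖E‖ ≤ 1 := by
    rw [inv_mul_le_iff₀ (by positivity)]; linarith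
  generalize (‖E‖ + 1)⁻¹ = t at *
  have h1 := h (u - (t : ℂ) • E u)
  have h2 := q_le E (E u)
  have h3 : inner ℂ u (E (E u)) = inner ℂ (E u) (E u) := (hE.isSymmetric u (E u)).symm
  have h4 : q E (u - (t : ℂ) • E u) (u - (t : ℂ) • E u) =
      q E u u - 2 * t * ‖E u‖ ^ 2 + t ^ 2 * q E (E u) (E u) := by
    simp [q, h3, ← Complex.ofReal_pow]
    ring
  have h5 : t * ‖E u‖ ^ 2 ≤ 0 := by
    nlinarith [mul_le_mul_of_nonneg_left h2 (sq_nonneg t), sq_nonneg ‖E u‖,
      mul_le_mul_of_nonneg_right ht' (mul_nonneg ht.le (sq_nonneg ‖E u‖))]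
  have h6 : ‖E u‖ ^ 2 ≤ 0 := nonpos_of_mul_nonpos_right h5 ht
  simpa using h6.antisymm (sq_nonneg _)

lemma down {X Z C : H →L[ℂ] H} (hX : IsSelfAdjoint X) (hC : IsSelfAdjoint C) {k : ℕ}
    (hB : Blk X (C ^ (k + 2)) Z) (h0 : ∀ x, 0 ≤ q X x x) (h1 : ∀ x, q X x x ≤ q (C ^ (k + 1)) x x)
    (h2 : ∀ x, q Z x x ≤ q (C ^ (k + 3)) x x) : X = C ^ (k + 1) := by
  have hE : IsSelfAdjoint (C ^ (k + 1) - X) := (hC.pow _).sub hX
  have hp : ∀ u, 0 ≤ q (C ^ (k + 1) - X) u u := fun u => by rw [q_sub]; linarith [h1 u]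
  have hEC : (C ^ (k + 1) - X) * C = 0 := by
    ext z
    refine pos_zero (u := C z) hE hp ?_
    have a1 := hB (C z) (-z)
    have a2 : q (C ^ (k + 2)) (C z) (-z) = -q (C ^ (k + 3)) z z := by
      have := q_conj (C ^ (k + 2)) C 1 z z
      rw [hC.star_eq, mul_one, ← pow_succ'] at this
      rw [this]; simp [q]
    have a3 : q (C ^ (k + 1)) (C z) (C z) = q (C ^ (k + 3)) z z := by
      rw [← q_conj, hC.star_eq, ← pow_succ', ← pow_succ]
    have a4 : q Z (-z) (-z) = q Z z z := by simp [q]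
    rw [q_sub]
    linarith [h2 z]
  have hCE : C * (C ^ (k + 1) - X) = 0 := by
    simpa [hC.star_eq, hE.star_eq] using congrArg star hEC
  rw [eq_comm, ← sub_eq_zero]
  set E := C ^ (k + 1) - X with hEdef
  rw [← CStarRing.star_mul_self_eq_zero_iff, hE.star_eq]
  ext x
  refine pos_zero (u := E x) hE hp ?_
  have : (C ^ (k + 1)) (E x) = 0 := by
    rw [← mul_apply_eq_comp, pow_succ, mul_assoc, hCE]; simp
  rw [hEdef, q_sub, ← hEdef]
  have a1 : q (C ^ (k + 1)) (E x) (E x) = 0 := by simp [q, this]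
  linarith [h0 (E x)]

end Pool.Agent.H.MP_20dafb_an
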